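import Pool.Agent.Helper23K9.Q8.Main
import Pool.Agent.Helper23K9.Q7.Fix2

/-!
# The Tate conjecture at 2 over multiquadratic covers of the projective line
-/

set_option autoImplicit false
set_option linter.all false

open Polynomial NumberField
open scoped Classical

namespace Pool.Agent.Helper23K9.Q8

open Pool.Agent.TH115.GD (Sep IsTower TateAtTwo crvT NotNorm)
open Pool.Agent.R939.EI (OnlyTrivial InertIn Inert twist_main polA)
open Pool.Agent.R939.HI (TateTD)
open Pool.Agent.Helper23K9.Q7 (tateAt_two qtw_crvT crvT_disc comp_ne Generic)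
open Pool.Agent.Helper23K9.Q5 (qtw)

/-- None of the `r i` is in the field generated over `F` by the others, in terms of the Galois group:
for every `i` there is a `t` which moves `r i` and fixes the other `r j`. If the `(r i) ^ 2` are in
`F` this means that the degree of `F(r)` over `F` is `2 ^ m`. -/
def Indep {F : Type} [Field F] {m : ℕ} (r : Fin m → Sep F) : Prop :=
  ∀ i, ∃ t : Sep F ≃ₐ[F] Sep F, t (r i) ≠ r i ∧ ∀ j, j ≠ i → t (r j) = r j

/-- The Tate conjecture at 2 for the elliptic surface with generic fibre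
`y² = x (x² + a(h(t)) x + b(h(t)))` over the curve `s_i ^ 2 = c_i D_i(h(t))`, `i = 1, ..., m`, if this
curve is geometrically irreducible (`Indep`). -/
def TateOverM (k' K F : Type) {k : Type} [Field k] [Field k'] [Field K] [Algebra k[X] K]
    [Field F] [Algebra k'[X] F] [IsFractionRing k'[X] F] [Algebra K F] (a b h : k[X]) {m : ℕ}
    (D : Fin m → k[X]) (c : Fin m → k) : Prop :=
  ∀ r : Fin m → Sep F,
    (∀ i, r i ^ 2 = algebraMap K (Sep F) (algebraMap k[X] K ((C (c i) * D i).comp h))) →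
    Indep r →
    TateOverR 2 k' (crvT (algebraMap k[X] K (a.comp h)) (algebraMap k[X] K (b.comp h)))
      (Set.range r)

section multi

variable {k k' K F : Type} [Field k] [Field k'] [Algebra k k'] [Field K] [Algebra k[X] K]
    [Field F] [Algebra k'[X] F] [IsFractionRing k'[X] F] [Algebra K F]

/-- the twisted curve -/
noncomputable abbrev Tc (K : Type) [Field K] [Algebra k[X] K] (a b h P : k[X]) (κ : k) :
    WeierstrassCurve K :=
  crvT (algebraMap k[X] K ((C κ * (a * P)).comp h)) (algebraMap k[X] K ((C (κ ^ 2) * (b * P ^ 2)).comp h))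

theorem tc_disc (hT : IsTower k k' K F) (h2 : (2 : k) ≠ 0) {a b h P : k[X]} {κ : k} (hb : b ≠ 0)
    (hd : a ^ 2 - 4 * b ≠ 0) (hP : P ≠ 0) (hκ : κ ≠ 0) (hh : h.natDegree ≠ 0) :
    (Tc K a b h P κ).Δ ≠ 0 := by
  haveI := hT.fracK
  have hinj := IsFractionRing.injective k[X] K
  have h16 : (16 : K) ≠ 0 := by
    have h3 : (16 : K) = algebraMap k[X] K (C 2 ^ 4) := by
      rw [map_pow, map_ofNat, map_ofNat]
      norm_num
    rw [h3, Ne, map_eq_zero_iff _ hinj]
    exact pow_ne_zero 4 (C_ne_zero.2 h2)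
  rw [crvT_disc]
  have e1 : algebraMap k[X] K ((C κ * (a * P)).comp h) ^ 2 -
      4 * algebraMap k[X] K ((C (κ ^ 2) * (b * P ^ 2)).comp h) =
      algebraMap k[X] K ((C (κ ^ 2) * P ^ 2 * (a ^ 2 - 4 * b)).comp h) := by
    have e4 : (4 : K) = algebraMap k[X] K ((4 : k[X]).comp h) := by
      have h5 : (4 : k[X]) = C 4 := by rw [map_ofNat]
      rw [h5, C_comp, ← h5, map_ofNat]
    rw [e4, ← map_pow (algebraMap k[X] K), ← map_mul, ← map_sub]
    congr 1
    simp only [mul_comp, C_comp, C_pow, pow_comp, sub_comp]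
    ring
  rw [e1]
  have hk2 : (C (κ ^ 2) : k[X]) ≠ 0 := C_ne_zero.2 (pow_ne_zero 2 hκ)
  refine mul_ne_zero (mul_ne_zero h16 (pow_ne_zero 2 ?_)) ?_
  · rw [Ne, map_eq_zero_iff _ hinj]
    exact comp_ne (mul_ne_zero hk2 (mul_ne_zero hb (pow_ne_zero 2 hP))) hh
  · rw [Ne, map_eq_zero_iff _ hinj]
    exact comp_ne (mul_ne_zero (mul_ne_zero hk2 (pow_ne_zero 2 hP)) hd) hh

/-- **The Tate conjecture over multiquadratic covers.** -/
theorem multi (hT : IsTower k k' K F) (h2 : (2 : k) ≠ 0) {a b h : k[X]} (hb : b ≠ 0)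
    (hd : a ^ 2 - 4 * b ≠ 0) (hodd : Odd h.natDegree) {m : ℕ} {D : Fin m → k[X]} {c : Fin m → k}
    (hc : ∀ i, c i ≠ 0) (hD : ∀ i, D i ≠ 0)
    (htw : ∀ (S : Finset (Fin m)) (κ : k), κ ≠ 0 →
      TateAtTwo (F := F) k' (Tc K a b h (∏ i ∈ S, D i) κ)) : TateOverM k' K F a b h D c := by
  intro r hr hind
  have hh0 : h.natDegree ≠ 0 := by
    intro h0
    rw [h0] at hodd
    exact absurd hodd (by decide)
  have h4 : (4 : k) ≠ 0 := by
    have : (4 : k) = 2 ^ 2 := by norm_num
    rw [this]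
    exact pow_ne_zero 2 h2
  have key : ∀ T S : Finset (Fin m), Disjoint S T → ∀ κ : k, κ ≠ 0 →
      TateOverR 2 k' (Tc K a b h (∏ i ∈ S, D i) κ) (r '' (T : Set (Fin m))) := by
    intro T
    induction T using Finset.induction_on with
    | empty =>
      intro S _ κ hκ
      rw [Finset.coe_empty, Set.image_empty]
      exact over_empty (tateAt_two (htw S κ hκ))
    | insert i T hi ih =>
      intro S hdis κ hκ
      rw [Finset.disjoint_insert_right] at hdis
      rw [Finset.coe_insert, Set.image_insert_eq]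
      obtain ⟨t, ht1, ht2⟩ := hind i
      refine step hT h2 (tc_disc hT h2 hb hd (Finset.prod_ne_zero_iff.2 fun j _ => hD j) hκ hh0)
        (hr i) ⟨t, ?_, ht1⟩ (ih S hdis.2 κ hκ) ?_
      · rintro _ ⟨j, hj, rfl⟩
        exact ht2 j fun h => hi (h ▸ hj)
      · have h3 := ih (insert i S) (by
          rw [Finset.disjoint_insert_left]
          exact ⟨hi, hdis.2⟩) (4 * c i * κ) (mul_ne_zero (mul_ne_zero h4 (hc i)) hκ)
        have e4 : (4 : K) = algebraMap k[X] K ((C 4 : k[X]).comp h) := by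
          rw [C_comp, map_ofNat, map_ofNat]
        have e16 : (16 : K) = algebraMap k[X] K ((C 4 ^ 2 : k[X]).comp h) := by
          rw [pow_comp, C_comp, map_pow, map_ofNat, map_ofNat]
          norm_num
        have e5 : Tc K a b h (∏ i ∈ insert i S, D i) (4 * c i * κ) =
            qtw (algebraMap k[X] K ((C (c i) * D i).comp h)) (Tc K a b h (∏ i ∈ S, D i) κ) := by
          unfold Tc
          rw [qtw_crvT, Finset.prod_insert hdis.1]
          obtain ⟨P, hP⟩ : ∃ P, P = ∏ x ∈ S, D x := ⟨_, rfl⟩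
          rw [← hP]
          have eA : 4 * algebraMap k[X] K ((C (c i) * D i).comp h) *
              algebraMap k[X] K ((C κ * (a * P)).comp h) =
              algebraMap k[X] K ((C (4 * c i * κ) * (a * (D i * P))).comp h) := by
            rw [e4, ← map_mul, ← map_mul]
            congr 1
            simp only [mul_comp, C_comp, C_mul]
            ring
          have eB : 16 * algebraMap k[X] K ((C (c i) * D i).comp h) ^ 2 *
              algebraMap k[X] K ((C (κ ^ 2) * (b * P ^ 2)).comp h) =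
              algebraMap k[X] K ((C ((4 * c i * κ) ^ 2) * (b * (D i * P) ^ 2)).comp h) := by
            rw [e16, ← map_pow (algebraMap k[X] K) ((C (c i) * D i).comp h), ← map_mul, ← map_mul]
            congr 1
            simp only [mul_comp, pow_comp, C_comp, C_mul, C_pow]
            ring
          rw [eA, eB]
        rw [e5] at h3
        exact h3
  have h5 := key Finset.univ ∅ (Finset.disjoint_empty_left _) 1 one_ne_zero
  unfold Tc at h5
  simpa only [Finset.prod_empty, one_pow, map_one, one_mul, mul_one, Finset.coe_univ,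
    Set.image_univ] using h5

/-- The sets of primes. -/
theorem prime_of_prod {m : ℕ} {D : Fin m → k[X]} {D0 : k[X]}
    (h : ∀ i (π : k[X]), Irreducible π → π ∣ D i → π ∣ D0) (S : Finset (Fin m)) {π : k[X]}
    (hπ : Irreducible π) (hdv : π ∣ ∏ i ∈ S, D i) : π ∣ D0 := by
  obtain ⟨i, -, hi⟩ := (hπ.prime.dvd_finsetProd_iff _).1 hdv
  exact h i π hπ hi

/-- The criterion. -/
theorem crit (hT : IsTower k k' K F) (h2 : (2 : k) ≠ 0) {a b h : k[X]} (hG : Generic a b)
    {m : ℕ} {D : Fin m → k[X]} {D0 : k[X]} {c : Fin m → k} (hin : InertIn a b D0)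
    (hD : ∀ i, D i ≠ 0) (hDD : ∀ i (π : k[X]), Irreducible π → π ∣ D i → π ∣ D0)
    (hc : ∀ i, c i ≠ 0) (hodd : Odd h.natDegree) (hi : Inert (b * (a ^ 2 - 4 * b) * D0) h) :
    TateOverM k' K F a b h D c := by
  obtain ⟨hb, hd, hNb, hNd, hO, hO'⟩ := hG
  refine multi hT h2 hb hd hodd hc hD fun S κ hκ => ?_
  refine twist_main hT h2 hb hd hNb hNd hO hO' (D := ∏ i ∈ S, D i) ⟨?_, ?_⟩ hκ hodd ?_
  · exact Finset.prod_ne_zero_iff.2 fun j _ => hD j
  · intro π hπ hdv
    exact hin.2 π hπ (prime_of_prod hDD S hπ hdv)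
  · intro π hπ hdv
    rcases hπ.prime.dvd_or_dvd hdv with h8 | h8
    · exact hi π hπ (h8.mul_right _)
    · exact hi π hπ ((prime_of_prod hDD S hπ h8).mul_left _)

/-- From the Tate conjecture for the twists. -/
theorem of_td [NumberField k] (hT : IsTower k k' K F) {a b h : k[X]}
    {m : ℕ} {D : Fin m → k[X]} {c : Fin m → k} (hin : InertIn a b (X * ∏ i, D i))
    (hall : ∀ D, InertIn a b D → TateTD k' K F a b D) (hc : ∀ i, c i ≠ 0)
    (hodd : Odd h.natDegree)
    (hi : ∀ π : k[X], Irreducible π → π ∣ b * (a ^ 2 - 4 * b) * ∏ i, D i →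
      Irreducible (π.comp h)) : TateOverM k' K F a b h D c := by
  have h0 := hin.2 X irreducible_X (dvd_mul_right _ _) 0
  have hb0 : b ≠ 0 := by
    rintro rfl
    apply h0.1
    simp
  have hd0 : a ^ 2 - 4 * b ≠ 0 := by
    intro h1
    apply h0.2
    rw [h1]
    simp
  have hDD : ∀ i (π : k[X]), Irreducible π → π ∣ D i → π ∣ ∏ i, D i := fun i π _ h =>
    h.trans (Finset.dvd_prod_of_mem D (Finset.mem_univ i))
  have hD : ∀ i, D i ≠ 0 := fun i => Finset.prod_ne_zero_iff.1 (right_ne_zero_of_mul hin.1) i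
    (Finset.mem_univ i)
  refine multi hT two_ne_zero hb0 hd0 hodd hc hD fun S κ hκ => ?_
  refine hall (∏ i ∈ S, D i) ⟨?_, ?_⟩ κ h hκ hodd ?_
  · exact Finset.prod_ne_zero_iff.2 fun j _ => hD j
  · intro π hπ hdv
    exact hin.2 π hπ ((prime_of_prod hDD S hπ hdv).mul_left X)
  · intro π hπ hdv
    rcases hπ.prime.dvd_or_dvd hdv with h8 | h8
    · exact hi π hπ (h8.mul_right _)
    · exact hi π hπ ((prime_of_prod hDD S hπ h8).mul_left _)

end multi

end Pool.Agent.Helper23K9.Q8
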