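import Pool.Agent.Helper23K9.Q8.Defs
import Pool.Agent.Helper23K9.Q7.Main

/-!
The corestriction, relative version.
-/

set_option autoImplicit false
set_option linter.all false

open Polynomial IsDedekindDomain WeierstrassCurve WeierstrassCurve.Affine
open scoped Classical IntermediateField

namespace Pool.Agent.Helper23K9.Q8

open Pool.Agent.TH115.GD (Pt act incl rs ak Sep Comp CompInf IsCoc act_act rs_mul act_locConst
  LocTriv exists_conj exists_restrict Preserves LocallyTrivial)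
open Pool.Agent.Helper7K9.T3 (IsTM IsTC IsInv)
open Pool.Agent.W309.TD (locConst_apply)
open Pool.Agent.Helper23K9.Q7 (cor am a1 Sg)

universe u

section cor

variable {K F Ω : Type u} [Field K] [Field F] [Field Ω] [Algebra K F] [Algebra F Ω] [Algebra K Ω]
  [IsScalarTower K F Ω] {W : WeierstrassCurve K} {R : Set Ω} {r : Ω}

/-- fixes `R` and `r` -/
def Pos (R : Set Ω) (r : Ω) (σ : Ω ≃ₐ[F] Ω) : Prop := Fixes R σ ∧ σ r = r

/-- fixes `R`, and `r` is mapped to `-r` -/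
def Neg (R : Set Ω) (r : Ω) (σ : Ω ≃ₐ[F] Ω) : Prop := Fixes R σ ∧ σ r = -r

theorem fixes_insert {σ : Ω → Ω} : Fixes (insert r R) σ ↔ Fixes R σ ∧ σ r = r := by
  constructor
  · intro h
    exact ⟨fun ρ hρ => h ρ (Set.mem_insert_of_mem _ hρ), h r (Set.mem_insert _ _)⟩
  · rintro ⟨h1, h2⟩ ρ (rfl | hρ)
    · exact h2
    · exact h1 ρ hρ

theorem Pos.ins {σ : Ω ≃ₐ[F] Ω} (h : Pos R r σ) : Fixes (insert r R) σ := fixes_insert.2 h

theorem Fixes.mul {σ τ : Ω ≃ₐ[F] Ω} (h : Fixes R σ) (h' : Fixes R τ) : Fixes R (σ * τ : Ω ≃ₐ[F] Ω) :=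
  fun ρ hρ => by rw [AlgEquiv.mul_apply, h' ρ hρ, h ρ hρ]

theorem Fixes.inv {σ : Ω ≃ₐ[F] Ω} (h : Fixes R σ) : Fixes R (σ⁻¹ : Ω ≃ₐ[F] Ω) := fun ρ hρ => by
  nth_rewrite 1 [← h ρ hρ]
  rw [← AlgEquiv.mul_apply, inv_mul_cancel, AlgEquiv.one_apply]

theorem fixes_one : Fixes R (1 : Ω ≃ₐ[F] Ω) := fun ρ _ => rfl

theorem cor_pos {t : Ω ≃ₐ[F] Ω} {f : (Ω ≃ₐ[F] Ω) → Pt W Ω} {σ : Ω ≃ₐ[F] Ω} (h : Pos R r σ) :
    cor W r t f σ = f σ + act W (rs K t) (f (t⁻¹ * σ * t)) := if_pos h.2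

theorem cor_neg {t : Ω ≃ₐ[F] Ω} {f : (Ω ≃ₐ[F] Ω) → Pt W Ω} {σ : Ω ≃ₐ[F] Ω} (h : ¬ σ r = r) :
    cor W r t f σ = f (σ * t) + act W (rs K t) (f (t⁻¹ * σ)) := if_neg h

/-- The sign of an automorphism. -/
structure SgR (R : Set Ω) (r : Ω) (t : Ω ≃ₐ[F] Ω) : Prop where
  pm : ∀ σ : Ω ≃ₐ[F] Ω, σ r = r ∨ σ r = -r
  ne : r ≠ -r
  neg : Neg R r t

theorem inv_pos {σ : Ω ≃ₐ[F] Ω} (h : Pos R r σ) : Pos R r σ⁻¹ :=
  ⟨h.1.inv, Q7.inv_pos h.2⟩

theorem inv_neg' {σ : Ω ≃ₐ[F] Ω} (h : Neg R r σ) : Neg R r σ⁻¹ :=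
  ⟨h.1.inv, Q7.inv_neg' h.2⟩

theorem mul_pp {σ τ : Ω ≃ₐ[F] Ω} (h : Pos R r σ) (h' : Pos R r τ) : Pos R r (σ * τ) :=
  ⟨h.1.mul h'.1, Q7.mul_pp h.2 h'.2⟩

theorem mul_pn {σ τ : Ω ≃ₐ[F] Ω} (h : Pos R r σ) (h' : Neg R r τ) : Neg R r (σ * τ) :=
  ⟨h.1.mul h'.1, Q7.mul_pn h.2 h'.2⟩

theorem mul_np {σ τ : Ω ≃ₐ[F] Ω} (h : Neg R r σ) (h' : Pos R r τ) : Neg R r (σ * τ) :=
  ⟨h.1.mul h'.1, Q7.mul_np h.2 h'.2⟩

theorem mul_nn {σ τ : Ω ≃ₐ[F] Ω} (h : Neg R r σ) (h' : Neg R r τ) : Pos R r (σ * τ) :=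
  ⟨h.1.mul h'.1, Q7.mul_nn h.2 h'.2⟩

namespace SgR

variable {t : Ω ≃ₐ[F] Ω} (S : SgR R r t)

include S

theorem sg : Sg r t := ⟨S.pm, S.ne, S.neg.2⟩

theorem not_pos {σ : Ω ≃ₐ[F] Ω} (h : Neg R r σ) : ¬ σ r = r := fun h' => S.ne (h'.symm.trans h.2)

theorem split {σ : Ω ≃ₐ[F] Ω} (h : Fixes R σ) : Pos R r σ ∨ (¬ σ r = r ∧ Neg R r σ) := by
  rcases S.pm σ with h1 | h1
  · exact Or.inl ⟨h, h1⟩
  · exact Or.inr ⟨S.not_pos ⟨h, h1⟩, ⟨h, h1⟩⟩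

end SgR

variable {t : Ω ≃ₐ[F] Ω} {f : (Ω ≃ₐ[F] Ω) → Pt W Ω}

theorem IsCocR.pp (hf : IsCocR W (insert r R) f) (σ τ : Ω ≃ₐ[F] Ω) (h : Pos R r σ)
    (h' : Pos R r τ) : f (σ * τ) = f σ + act W (rs K σ) (f τ) := hf.mul σ τ h.ins h'.ins

/-- The corestriction of a cocycle is a cocycle. -/
theorem IsCocR.cor [IsGalois F Ω] (hf : IsCocR W (insert r R) f) (S : SgR R r t) :
    IsCocR W R (cor W r t f) := by
  refine ⟨?_, fun σ τ iσ iτ => ?_⟩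
  · have h1 : IsLocallyConstant fun σ : Ω ≃ₐ[F] Ω => σ r := locConst_apply (K := F) r
    have h2 : IsLocallyConstant fun σ : Ω ≃ₐ[F] Ω => f (t⁻¹ * σ * t) :=
      hf.lc.comp_continuous (by fun_prop)
    have h3 : IsLocallyConstant fun σ : Ω ≃ₐ[F] Ω => f (σ * t) :=
      hf.lc.comp_continuous (by fun_prop)
    have h4 : IsLocallyConstant fun σ : Ω ≃ₐ[F] Ω => f (t⁻¹ * σ) :=
      hf.lc.comp_continuous (by fun_prop)
    rw [IsLocallyConstant.iff_exists_open]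
    intro σ
    obtain ⟨U0, o0, m0, e0⟩ := (IsLocallyConstant.iff_exists_open _).1 hf.lc σ
    obtain ⟨U1, o1, m1, e1⟩ := (IsLocallyConstant.iff_exists_open _).1 h1 σ
    obtain ⟨U2, o2, m2, e2⟩ := (IsLocallyConstant.iff_exists_open _).1 h2 σ
    obtain ⟨U3, o3, m3, e3⟩ := (IsLocallyConstant.iff_exists_open _).1 h3 σ
    obtain ⟨U4, o4, m4, e4⟩ := (IsLocallyConstant.iff_exists_open _).1 h4 σ
    refine ⟨U0 ∩ (U1 ∩ (U2 ∩ (U3 ∩ U4))), o0.inter (o1.inter (o2.inter (o3.inter o4))),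
      ⟨m0, m1, m2, m3, m4⟩, fun τ hτ => ?_⟩
    obtain ⟨n0, n1, n2, n3, n4⟩ := hτ
    have q0 := e0 τ n0
    have q1 := e1 τ n1
    have q2 := e2 τ n2
    have q3 := e3 τ n3
    have q4 := e4 τ n4
    unfold Q7.cor
    rw [q0, q1, q2, q3, q4]
  · have ht := S.neg
    have hti := inv_neg' ht
    have hpp := hf.pp
    rcases S.split iσ with hσ | ⟨hσ, hσ'⟩
    · rcases S.split iτ with hτ | ⟨hτ, hτ'⟩
      · rw [cor_pos (mul_pp hσ hτ), cor_pos hσ, cor_pos hτ, hpp σ τ hσ hτ]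
        have e1 : t⁻¹ * (σ * τ) * t = (t⁻¹ * σ * t) * (t⁻¹ * τ * t) := by group
        rw [e1, hpp _ _ (mul_nn (mul_np hti hσ) ht) (mul_nn (mul_np hti hτ) ht)]
        have e2 : t * (t⁻¹ * σ * t) = σ * t := by group
        rw [map_add, map_add, ← am, e2, am]
        abel
      · rw [cor_neg (S.not_pos (mul_pn hσ hτ')), cor_pos hσ, cor_neg hτ]
        have e1 : σ * τ * t = σ * (τ * t) := by group
        have e2 : t⁻¹ * (σ * τ) = (t⁻¹ * σ * t) * (t⁻¹ * τ) := by group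
        rw [e1, e2, hpp _ _ hσ (mul_nn hτ' ht), hpp _ _ (mul_nn (mul_np hti hσ) ht)
          (mul_nn hti hτ')]
        have e3 : t * (t⁻¹ * σ * t) = σ * t := by group
        rw [map_add, map_add, ← am, e3, am]
        abel
    · rcases S.split iτ with hτ | ⟨hτ, hτ'⟩
      · rw [cor_neg (S.not_pos (mul_np hσ' hτ)), cor_neg hσ, cor_pos hτ]
        have e1 : σ * τ * t = (σ * t) * (t⁻¹ * τ * t) := by group
        have e2 : t⁻¹ * (σ * τ) = (t⁻¹ * σ) * τ := by group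
        rw [e1, e2, hpp _ _ (mul_nn hσ' ht) (mul_nn (mul_np hti hτ) ht), hpp _ _
          (mul_nn hti hσ') hτ]
        have e3 : t * (t⁻¹ * σ) = σ := by group
        rw [map_add, map_add, ← am, ← am, e3]
        abel
      · rw [cor_pos (mul_nn hσ' hτ'), cor_neg hσ, cor_neg hτ]
        have e1 : σ * τ = (σ * t) * (t⁻¹ * τ) := by group
        have e2 : t⁻¹ * (σ * τ) * t = (t⁻¹ * σ) * (τ * t) := by group
        rw [e2, e1, hpp _ _ (mul_nn hσ' ht) (mul_nn hti hτ'), hpp _ _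
          (mul_nn hti hσ') (mul_nn hτ' ht)]
        have e3 : t * (t⁻¹ * σ) = σ := by group
        rw [map_add, map_add, ← am, ← am, e3]
        abel

/-- The change of the representative. -/
theorem cor_rep (hf : IsCocR W (insert r R) f) (S : SgR R r t) {s : Ω ≃ₐ[F] Ω} (hs : Neg R r s)
    (g : Ω ≃ₐ[F] Ω) (ig : Fixes R g) : cor W r s f g = cor W r t f g +
      (act W (rs K g) (act W (rs K t) (f (t⁻¹ * s))) - act W (rs K t) (f (t⁻¹ * s))) := by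
  have ht := S.neg
  have hti := inv_neg' ht
  have hsi := inv_neg' hs
  have hpp := hf.pp
  obtain ⟨h, hh⟩ : ∃ h, h = t⁻¹ * s := ⟨_, rfl⟩
  have hr : Pos R r h := by rw [hh]; exact mul_nn hti hs
  have hir : Pos R r h⁻¹ := inv_pos hr
  have es : s = t * h := by rw [hh]; group
  rw [← hh]
  have h1 : f 1 = 0 := by
    have := hpp 1 1 ⟨fixes_one, rfl⟩ ⟨fixes_one, rfl⟩
    rw [mul_one, a1] at this
    have h2 : f 1 + 0 = f 1 + f 1 := by rw [add_zero]; exact this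
    exact (add_left_cancel h2).symm
  have hinv : act W (rs K h) (f h⁻¹) = -f h := by
    have := hpp h h⁻¹ hr hir
    rw [mul_inv_cancel, h1] at this
    exact (neg_eq_of_add_eq_zero_right this.symm).symm
  rcases S.split ig with hg | ⟨hg, hg'⟩
  · rw [cor_pos hg, cor_pos hg]
    have hx : Pos R r (t⁻¹ * g * t) := mul_nn (mul_np hti hg) ht
    have e1 : s⁻¹ * g * s = h⁻¹ * ((t⁻¹ * g * t) * h) := by rw [es]; group
    rw [e1, hpp _ _ hir (mul_pp hx hr), hpp _ _ hx hr, es, am, map_add (act W (rs K h)), hinv,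
      ← am h h⁻¹, mul_inv_cancel, a1, map_add, map_add, map_neg, ← am t (t⁻¹ * g * t)]
    have e2 : t * (t⁻¹ * g * t) = g * t := by group
    rw [e2, am]
    abel
  · rw [cor_neg hg, cor_neg hg]
    have hx : Pos R r (t⁻¹ * g) := mul_nn hti hg'
    have hy : Pos R r (g * t) := mul_nn hg' ht
    have e1 : s⁻¹ * g = h⁻¹ * (t⁻¹ * g) := by rw [es]; group
    have e2 : g * s = (g * t) * h := by rw [es]; group
    rw [e1, e2, hpp _ _ hir hx, hpp _ _ hy hr, es, am t h, map_add (act W (rs K h)), hinv,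
      ← am h h⁻¹, mul_inv_cancel, a1, map_add, map_neg, am g t]
    abel

end cor

section loc

variable {K F Ω Fv Ω' : Type u} [Field K] [Field F] [Field Ω] [Field Fv] [Field Ω']
  [Algebra K F] [Algebra F Ω] [Algebra K Ω] [IsScalarTower K F Ω]
  [Algebra K Fv] [Algebra F Fv] [IsScalarTower K F Fv]
  [Algebra Fv Ω'] [Algebra K Ω'] [Algebra F Ω'] [IsScalarTower K Fv Ω'] [IsScalarTower F Fv Ω']
  [IsScalarTower K F Ω'] {W : WeierstrassCurve K} {R : Set Ω} {r : Ω} {t : Ω ≃ₐ[F] Ω}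
  {f : (Ω ≃ₐ[F] Ω) → Pt W Ω}

/-- The corestriction of a locally trivial class is locally trivial. -/
theorem loc_cor (hf : IsCocR W (insert r R) f) (S : SgR R r t)
    (hloc : LocTrivR W (insert r R) Fv Ω' f) : LocTrivR W R Fv Ω' (cor W r t f) := by
  intro ι
  have ac : ∀ (σ : Ω ≃ₐ[F] Ω) (X : Pt W Ω), act W (ι.restrictScalars K) (act W (rs K σ) X) =
      act W ((ι.restrictScalars K).comp (rs K σ)) X := fun σ X => act_act W _ _ X
  have ex : ∀ (τ : Ω' ≃ₐ[Fv] Ω') (σ : Ω ≃ₐ[F] Ω), (∀ x, τ (ι x) = ι (σ x)) → ∀ X : Pt W Ω,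
      act W (ι.restrictScalars K) (act W (rs K σ) X) =
      act W (rs K τ) (act W (ι.restrictScalars K) X) := by
    intro τ σ h X
    have h1 : (ι.restrictScalars K).comp (rs K σ) = (rs K τ).comp (ι.restrictScalars K) :=
      AlgHom.ext fun x => (h x).symm
    rw [act_act, act_act, h1]
  have hmul : ∀ (τ τ' : Ω' ≃ₐ[Fv] Ω') (σ σ' : Ω ≃ₐ[F] Ω), (∀ x, τ (ι x) = ι (σ x)) →
      (∀ x, τ' (ι x) = ι (σ' x)) → ∀ x, (τ * τ') (ι x) = ι ((σ * σ') x) := by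
    intro τ τ' σ σ' h h' x
    rw [AlgEquiv.mul_apply, h', h, AlgEquiv.mul_apply]
  have hinv : ∀ (τ : Ω' ≃ₐ[Fv] Ω') (σ : Ω ≃ₐ[F] Ω), (∀ x, τ (ι x) = ι (σ x)) →
      ∀ x, τ⁻¹ (ι x) = ι (σ⁻¹ x) := by
    intro τ σ h x
    have h1 := h (σ⁻¹ x)
    rw [← AlgEquiv.mul_apply σ, mul_inv_cancel, AlgEquiv.one_apply] at h1
    rw [← h1, ← AlgEquiv.mul_apply, inv_mul_cancel, AlgEquiv.one_apply]
  obtain ⟨P, hP0⟩ := hloc ι
  have hP : ∀ (τ : Ω' ≃ₐ[Fv] Ω') (σ : Ω ≃ₐ[F] Ω), Pos R r σ → (∀ x, τ (ι x) = ι (σ x)) →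
      act W (ι.restrictScalars K) (f σ) = act W (rs K τ) P - P :=
    fun τ σ h h' => hP0 τ σ h.ins h'
  by_cases hns : ∃ (τ0 : Ω' ≃ₐ[Fv] Ω') (s : Ω ≃ₐ[F] Ω), (∀ x, τ0 (ι x) = ι (s x)) ∧
      Fixes R s ∧ ¬ s r = r
  · obtain ⟨τ0, s, h0, is, hs⟩ := hns
    have hs' : Neg R r s := by
      rcases S.split is with h | h
      · exact absurd h.2 hs
      · exact h.2
    refine ⟨P + act W (rs K τ0) P - act W (ι.restrictScalars K)
      (act W (rs K t) (f (t⁻¹ * s))), fun τ σ iσ h => ?_⟩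
    have e0 : cor W r t f σ = cor W r s f σ -
        (act W (rs K σ) (act W (rs K t) (f (t⁻¹ * s))) - act W (rs K t) (f (t⁻¹ * s))) := by
      rw [cor_rep hf S hs' σ iσ]
      abel
    have e1 : act W (ι.restrictScalars K) (cor W r s f σ) =
        act W (rs K τ) (P + act W (rs K τ0) P) - (P + act W (rs K τ0) P) := by
      rcases S.split iσ with hσ | ⟨hσ, hσ'⟩
      · have h2 := hP (τ0⁻¹ * τ * τ0) (s⁻¹ * σ * s)
          (mul_nn (mul_np (inv_neg' hs') hσ) hs')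
          (hmul _ _ _ _ (hmul _ _ _ _ (hinv _ _ h0) h) h0)
        rw [cor_pos hσ, map_add, hP τ σ hσ h, ex τ0 s h0, h2, map_sub, ← am τ0]
        have e3 : τ0 * (τ0⁻¹ * τ * τ0) = τ * τ0 := by group
        rw [e3, am, map_add]
        abel
      · have h2 := hP (τ * τ0) (σ * s) (mul_nn hσ' hs') (hmul _ _ _ _ h h0)
        have h3 := hP (τ0⁻¹ * τ) (s⁻¹ * σ) (mul_nn (inv_neg' hs') hσ')
          (hmul _ _ _ _ (hinv _ _ h0) h)
        rw [cor_neg hσ, map_add, h2, ex τ0 s h0, h3, map_sub, ← am τ0]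
        have e3 : τ0 * (τ0⁻¹ * τ) = τ := by group
        rw [e3, am, map_add]
        abel
    rw [e0, map_sub, e1, map_sub, ex τ σ h, map_sub (act W (rs K τ))]
    abel
  · push Not at hns
    obtain ⟨P1, hP1⟩ := hloc (ι.comp t.toAlgHom)
    refine ⟨P + P1, fun τ σ iσ h => ?_⟩
    have hσ : Pos R r σ := ⟨iσ, hns τ σ h iσ⟩
    have h2 := hP1 τ (t⁻¹ * σ * t) (mul_nn (mul_np (inv_neg' S.neg) hσ) S.neg).ins (by
      intro x
      show τ (ι (t x)) = ι (t ((t⁻¹ * σ * t) x))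
      rw [h, ← AlgEquiv.mul_apply t, ← AlgEquiv.mul_apply σ]
      congr 2
      group)
    have e2 : act W ((ι.comp t.toAlgHom).restrictScalars K) (f (t⁻¹ * σ * t)) =
        act W (ι.restrictScalars K) (act W (rs K t) (f (t⁻¹ * σ * t))) := by
      rw [act_act]
      rfl
    rw [e2] at h2
    rw [cor_pos hσ, map_add, hP τ σ hσ h, h2, map_add]
    abel

end loc

end Pool.Agent.Helper23K9.Q8
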