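import Pool.Agent.Helper7K9.T3.Defs

/-!
# The Tate conjecture for elliptic surfaces over curves which cover the projective line: definitions

`k` is a field, `k'` a separable closure of `k`, `K = k(t)`, `F = k'(t)`, `R` a finite set of elements
of a separable closure `Sep F` of `F`, so that `K(R)` and `F(R)` are the function fields of a curve `C`
over `k` and over `k'` with a map to the projective line. This file has the definition of the Tate
conjecture at a prime `ℓ` for the elliptic surface over the curve `C` which is the pullback of the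
elliptic surface over the projective line with generic fibre `W` over `K` (for classes over `F` itself
these are the definitions of `Pool.Agent.TH115.GD.Defs` and `Pool.Agent.Helper7K9.T3.Defs`).

The Galois group of `Sep F` over `F(R)` is the group of the `σ` in `Gal(Sep F / F)` with `σ ρ = ρ` for
all `ρ` in `R`. All cochains are functions on `Gal(Sep F / F)` of which only the values on this open
subgroup matter.
-/

set_option autoImplicit false
set_option linter.all false

open Polynomial IsDedekindDomain WeierstrassCurve WeierstrassCurve.Affine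
open scoped Classical IntermediateField

namespace Pool.Agent.Helper23K9.Q8

open Pool.Agent.TH115.GD (Pt act incl rs ak Sep Comp CompInf)
open Pool.Agent.Helper7K9.T3 (IsTM)

universe u

/-- The map `σ` fixes all the elements of `R`. -/
def Fixes {Ω : Type u} (R : Set Ω) (σ : Ω → Ω) : Prop := ∀ ρ ∈ R, σ ρ = ρ

section cocycles

variable {K F Ω : Type u} [Field K] [Field F] [Field Ω] [Algebra K F] [Algebra F Ω] [Algebra K Ω]
  [IsScalarTower K F Ω] (W : WeierstrassCurve K) (R : Set Ω)

/-- The restriction of `f` to `Gal(Ω / F(R))` is a continuous cocycle with values in the discrete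
group `W(Ω)`. (A locally constant function on the open subgroup `Gal(Ω / F(R))` can be continued by
zero to a locally constant function on `Gal(Ω / F)`.) -/
structure IsCocR (f : (Ω ≃ₐ[F] Ω) → Pt W Ω) : Prop where
  lc : IsLocallyConstant f
  mul : ∀ σ τ : Ω ≃ₐ[F] Ω, Fixes R σ → Fixes R τ → f (σ * τ) = f σ + act W (rs K σ) (f τ)

/-- The class of `c` in `H ^ 1 (F(R), V_ℓ W)` is fixed by `Gal(Ω / K(R))`: for each `τ` in
`Gal(Ω / K(R))` there is an `m` such that `ℓ ^ m (τ c - c)` is the coboundary of an element `Q` of the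
Tate module. Here `(τ c) (σ) = τ (c (σ'))` with `σ' = τ⁻¹ σ τ`. -/
def IsInvR (ℓ : ℕ) (c : ℕ → (Ω ≃ₐ[F] Ω) → Pt W Ω) : Prop :=
  ∀ τ : Ω ≃ₐ[K] Ω, Fixes R τ → ∃ (m : ℕ) (Q : ℕ → Pt W Ω), IsTM ℓ W Q ∧
    ∀ (n : ℕ) (σ σ' : Ω ≃ₐ[F] Ω), Fixes R σ → (∀ x, τ (σ' x) = σ (τ x)) →
      ℓ ^ m • (act W (ak τ) (c n σ') - c n σ) = act W (rs K σ) (Q n) - Q n

/-- `Fv` is the completion of `F` at a place `v`, and `Ω'` a separable closure of `Fv`. The
restriction of the class of `f` to the completion of `F(R)` at every place above `v` is trivial.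
These places are given by the embeddings `ι : Ω → Ω'` over `F`: the completion is `Fv(ι R)`, and its
Galois group consists of the `τ` in `Gal(Ω' / Fv)` which fix the elements of `ι R`, that is, of those
which induce a `σ` on `Ω` which fixes the elements of `R`. -/
def LocTrivR (Fv Ω' : Type u) [Field Fv] [Field Ω'] [Algebra K Fv]
    [Algebra Fv Ω'] [Algebra K Ω'] [Algebra F Ω'] [IsScalarTower K Fv Ω'] [IsScalarTower K F Ω']
    (f : (Ω ≃ₐ[F] Ω) → Pt W Ω) : Prop :=
  ∀ ι : Ω →ₐ[F] Ω', ∃ P : Pt W Ω', ∀ (τ : Ω' ≃ₐ[Fv] Ω') (σ : Ω ≃ₐ[F] Ω), Fixes R σ →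
    (∀ x, τ (ι x) = ι (σ x)) →
      act W (ι.restrictScalars K) (f σ) = act W (rs K τ) P - P

end cocycles

section stmt

variable {K F : Type} [Field K] [Field F] [Algebra K F]

/-- The class of `f` is trivial at all the places of `F(R)`: those above the maximal ideals of `k'[t]`
and above the place `t = ∞`. -/
def LocallyTrivialR (k' : Type) [Field k'] [Algebra k'[X] F] [IsFractionRing k'[X] F]
    (W : WeierstrassCurve K) (R : Set (Sep F)) (f : (Sep F ≃ₐ[F] Sep F) → Pt W (Sep F)) : Prop :=
  (∀ v : HeightOneSpectrum k'[X],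
    LocTrivR W R (Comp k'[X] F v) (Sep (Comp k'[X] F v)) f) ∧
  LocTrivR W R (CompInf k' F) (Sep (CompInf k' F)) f

/-- `f` is the cocycle of order `ℓ ^ n` which is given by a point of `W(L)`, for an extension `L` of `K`
with an embedding `v` in `Sep F`: there are a point `P` of `W(L)` and a point `Q` with
`ℓ ^ n Q = P` such that `f σ = σ Q - Q` for all `σ` in `Gal(Sep F / F(R))`. -/
def FromPointR (ℓ n : ℕ) (W : WeierstrassCurve K) (R : Set (Sep F)) {L : Type} [Field L]
    [Algebra K L] (v : L →ₐ[K] Sep F) (f : (Sep F ≃ₐ[F] Sep F) → Pt W (Sep F)) : Prop :=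
  ∃ (P : Pt W L) (Q : Pt W (Sep F)), ℓ ^ n • Q = act W v P ∧
    ∀ σ : Sep F ≃ₐ[F] Sep F, Fixes R σ → f σ = act W (rs K σ) Q - Q

/-- The Tate conjecture at the prime `ℓ` for the elliptic surface with generic fibre `W` over the
curve with the function field `K(R)`: the classes in the `ℓ`-adic Selmer group `V_ℓ Sel(W / F(R))`
which are fixed by the Galois group come from `W(K(R))`. If `c` is a cocycle of `Gal(Sep F / F(R))`
with values in `T_ℓ W` which is trivial at all places of `F(R)`, and the class of `c` is fixed by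
`Gal(Sep F / K(R))`, then there is an `m` such that for every `n` the cocycle `ℓ ^ m c n` is given by
a point of `W(K(R))`. -/
def TateOverR (ℓ : ℕ) (k' : Type) [Field k'] [Algebra k'[X] F] [IsFractionRing k'[X] F]
    (W : WeierstrassCurve K) (R : Set (Sep F)) : Prop :=
  ∀ c : ℕ → (Sep F ≃ₐ[F] Sep F) → Pt W (Sep F), (∀ n, IsCocR W R (c n)) →
    (∀ σ : Sep F ≃ₐ[F] Sep F, Fixes R σ → c 0 σ = 0) →
    (∀ n (σ : Sep F ≃ₐ[F] Sep F), Fixes R σ → ℓ • c (n + 1) σ = c n σ) →
    (∀ n, LocallyTrivialR k' W R (c n)) → IsInvR W R ℓ c →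
    ∃ m : ℕ, ∀ n, FromPointR ℓ n W R (IntermediateField.adjoin K R).val (fun σ => ℓ ^ m • c n σ)

end stmt

end Pool.Agent.Helper23K9.Q8
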