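import Pool.Agent.Helper23K9.Q8.App

/-!
# The Tate conjecture at 2 over almost all multiquadratic covers and for almost all surfaces
-/

set_option autoImplicit false
set_option linter.all false

open Polynomial NumberField
open scoped Classical

namespace Pool.Agent.Helper23K9.Q8

open Pool.Agent.TH115.GD (Sep IsTower TateAtTwo crvT NotNorm)
open Pool.Agent.R939.EI (polA polP elt InertIn basis_elt)
open Pool.Agent.R939.HI (Ix aV bV kv mk card_Ix TateTD main_allI)
open Pool.Agent.R939.PP (AllIrr dens_allIrr)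
open Pool.Agent.W275.UB (D0 UD box_fin)
open Pool.Agent.Helper23K9.Q7 (Ixt dens_inert Generic)

section defs

variable {k : Type} [Field k] [NumberField k]

/-- The Tate conjecture at 2 for the elliptic surfaces with generic fibres
`y² = x (x² + a(h(t)) x + b(h(t)))`, for all the polynomials `h` of odd degree such that the
irreducible divisors of `b (a² - 4 b)` remain irreducible after the substitution `t ↦ h(t)` and such
that either `h` is monic with integral coefficients or the irreducible divisors of the `D l` remain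
irreducible after `t ↦ h(t)`, over all the curves `s_i ^ 2 = c_i D_i(h(t))`, `i = 1, ..., m`, where
`D_i` is the product of the `D l`, `l` in a set `S i`, and `c_i ≠ 0`. -/
def AllBases (k' K F : Type) [Field k'] [Field K]
    [Algebra k[X] K] [Field F] [Algebra k'[X] F] [IsFractionRing k'[X] F] [Algebra K F]
    (a b : k[X]) {u : ℕ} (D : Fin u → k[X]) : Prop :=
  ∀ h : k[X], Odd h.natDegree →
    (∀ π : k[X], Irreducible π → π ∣ b * (a ^ 2 - 4 * b) → Irreducible (π.comp h)) →
    ((∃ g : (𝓞 k)[X], g.Monic ∧ h = g.map (algebraMap (𝓞 k) k)) ∨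
      ∀ π : k[X], Irreducible π → π ∣ ∏ l, D l → Irreducible (π.comp h)) →
    ∀ {m : ℕ} (S : Fin m → Finset (Fin u)) (c : Fin m → k), (∀ i, c i ≠ 0) →
      TateOverM k' K F a b h (fun i => ∏ l ∈ S i, D l) c

/-- For almost all `(D_1, ..., D_u)`, `D_l` with integral coefficients and of degree at most `n l`,
the Tate conjecture at 2 holds in the sense of `AllBases`. -/
def MostBases (k' K F : Type) [Field k'] [Field K]
    [Algebra k[X] K] [Field F] [Algebra k'[X] F] [IsFractionRing k'[X] F] [Algebra K F]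
    {J : Type} [Fintype J] (B : Module.Basis J ℤ (𝓞 k)) (a b : k[X]) {u : ℕ} (n : Fin u → ℕ) :
    Prop :=
  ∀ η : ℝ, 0 < η → ∃ H0 : ℕ, ∀ H : ℕ, H0 ≤ H →
    (({x : (l : Fin u) → Fin (n l + 1) → 𝓞 k | (∀ l j t, |B.repr (x l j) t| ≤ (H : ℤ)) ∧
      ¬ AllBases k' K F a b fun l => polA fun j => algebraMap (𝓞 k) k (x l j)}.ncard : ℕ) : ℝ) ≤
      η * (2 * H + 1) ^ (Fintype.card J * ∑ l, (n l + 1))

/-- The Tate conjecture at 2 for the elliptic surfaces with generic fibres
`y² = x (x² + a(h(t)) x + b(h(t)))` over the curves `s_i ^ 2 = c_i D_i(h(t))`, `i = 1, ..., m`, for all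
the constants `c_i ≠ 0` and all the polynomials `h` of odd degree such that the irreducible divisors
of `b (a² - 4 b) D_1 ⋯ D_m` remain irreducible after the substitution `t ↦ h(t)`. -/
def AllCovers (k' K F : Type) [Field k'] [Field K]
    [Algebra k[X] K] [Field F] [Algebra k'[X] F] [IsFractionRing k'[X] F] [Algebra K F]
    (a b : k[X]) {m : ℕ} (D : Fin m → k[X]) : Prop :=
  ∀ (h : k[X]) (c : Fin m → k), Odd h.natDegree → (∀ i, c i ≠ 0) →
    (∀ π : k[X], Irreducible π → π ∣ b * (a ^ 2 - 4 * b) * ∏ i, D i → Irreducible (π.comp h)) →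
    TateOverM k' K F a b h D c

/-- For almost all `a`, `b` with integral coefficients and of degrees at most `r` and `s`, the Tate
conjecture at 2 holds in the sense of `AllCovers`. -/
def MostPairs (k' K F : Type) [Field k'] [Field K]
    [Algebra k[X] K] [Field F] [Algebra k'[X] F] [IsFractionRing k'[X] F] [Algebra K F]
    {J : Type} [Fintype J] (B : Module.Basis J ℤ (𝓞 k)) {m : ℕ} (D : Fin m → k[X]) (r s : ℕ) :
    Prop :=
  ∀ η : ℝ, 0 < η → ∃ H0 : ℕ, ∀ H : ℕ, H0 ≤ H →
    (({x : (Fin (r + 1) → 𝓞 k) × (Fin (s + 1) → 𝓞 k) |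
      ((∀ j t, |B.repr (x.1 j) t| ≤ (H : ℤ)) ∧ ∀ j t, |B.repr (x.2 j) t| ≤ (H : ℤ)) ∧
      ¬ AllCovers k' K F (polA fun j => algebraMap (𝓞 k) k (x.1 j))
        (polA fun j => algebraMap (𝓞 k) k (x.2 j)) D}.ncard : ℕ) : ℝ) ≤
      η * (2 * H + 1) ^ (Fintype.card J * (r + 1 + (s + 1)))

end defs

section main

variable {k k' K F : Type} [Field k] [NumberField k] [Field k'] [Algebra k k'] [Field K]
    [Algebra k[X] K] [Field F] [Algebra k'[X] F] [IsFractionRing k'[X] F] [Algebra K F]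
    {J : Type} [Fintype J] (B : Module.Basis J ℤ (𝓞 k))

theorem allBases_of (hT : IsTower k k' K F) {a b : k[X]} (hG : Generic a b) {u : ℕ}
    {D : Fin u → k[X]} (hin : InertIn a b (∏ l, D l)) (hall : ∀ l, AllIrr (D l)) :
    AllBases k' K F a b D := by
  intro h hodd hi hcase m S c hc
  have hDl : ∀ l, D l ≠ 0 := fun l => (hall l).1.ne_zero
  refine crit hT two_ne_zero hG hin (fun i => Finset.prod_ne_zero_iff.2 fun l _ => hDl l) ?_ hc
    hodd ?_
  · intro i π hπ hdv
    exact hdv.trans (Finset.prod_dvd_prod_of_subset _ _ _ (Finset.subset_univ _))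
  · intro π hπ hdv
    have h3 : Irreducible (π.comp h) := by
      rcases hπ.prime.dvd_or_dvd hdv with h8 | h8
      · exact hi π hπ h8
      · rcases hcase with ⟨g, hg, rfl⟩ | h9
        · obtain ⟨l, -, hl⟩ := (hπ.prime.dvd_finsetProd_iff _).1 h8
          have has : Associated (D l) π := (hπ.associated_of_dvd (hall l).1 hl).symm
          have hgd : g.natDegree ≠ 0 := by
            intro h0
            rw [hg.natDegree_map, h0] at hodd
            exact absurd hodd (by decide)
          have h10 := (hall l).2 g hg hgd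
          obtain ⟨w, hw⟩ := has
          rw [← hw, mul_comp]
          obtain ⟨c0, hc0, hc0'⟩ := Polynomial.isUnit_iff.1 w.isUnit
          rw [← hc0', C_comp]
          exact (irreducible_mul_isUnit (isUnit_C.2 hc0)).2 h10
        · exact h9 π hπ h8
    exact ⟨h3, h3.separable⟩

/-- **Almost all base curves.** -/
theorem most_bases (hT : IsTower k k' K F) {a b : k[X]} (hG : Generic a b) {u : ℕ}
    {n : Fin u → ℕ} (hn : ∀ l, 1 ≤ n l) : MostBases k' K F B a b n := by
  intro η hη
  have hb := Pool.Agent.R939.HI.ne_sq_of_notNorm hG.2.2.1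
  have hd := Pool.Agent.R939.HI.ne_sq_of_notNorm hG.2.2.2.1
  have g1 : D0 (⋃ l ∈ (Finset.univ : Finset (Fin u)),
      {x : (Σ l : Fin u, Fin (n l + 1)) × J → ℤ | ¬ AllIrr (polA fun j => kv B x ⟨l, j⟩)}) :=
    D0.biUnion _ _ fun l _ => dens_allIrr B l (hn l)
  obtain ⟨H0, hH⟩ := ((Pool.Agent.R939.HI.dens_inert B hb hd hn).union g1) η hη
  refine ⟨H0, fun H hHH => ?_⟩
  have h1 := hH H hHH
  have hcard : Fintype.card ((Σ l : Fin u, Fin (n l + 1)) × J) =
      Fintype.card J * ∑ l, (n l + 1) := by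
    rw [Fintype.card_prod, Fintype.card_sigma, Nat.mul_comm]
    simp
  rw [hcard] at h1
  refine le_trans ?_ h1
  let φ : ((l : Fin u) → Fin (n l + 1) → 𝓞 k) → ((Σ l : Fin u, Fin (n l + 1)) × J → ℤ) :=
    fun y o => B.repr (y o.1.1 o.1.2) o.2
  have hkv : ∀ y (o : Σ l : Fin u, Fin (n l + 1)), kv B (φ y) o =
      algebraMap (𝓞 k) k (y o.1 o.2) := by
    intro y o
    show algebraMap (𝓞 k) k (elt B fun j => B.repr (y o.1 o.2) j) = _
    rw [← basis_elt B]
  have hinj : Function.Injective φ := by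
    intro y z hyz
    funext l j
    apply FaithfulSMul.algebraMap_injective (𝓞 k) k
    have h3 := hkv y ⟨l, j⟩
    rw [hyz, hkv z ⟨l, j⟩] at h3
    exact h3.symm
  have h4 : (Set.ncard {x : (l : Fin u) → Fin (n l + 1) → 𝓞 k |
      (∀ l j t, |B.repr (x l j) t| ≤ (H : ℤ)) ∧
        ¬ AllBases k' K F a b fun l => polA fun j => algebraMap (𝓞 k) k (x l j)}) ≤
      Set.ncard {v : (Σ l : Fin u, Fin (n l + 1)) × J → ℤ |
        v ∈ ({x : (Σ l : Fin u, Fin (n l + 1)) × J → ℤ |
          ¬ InertIn a b (∏ l, polA fun j => kv B x ⟨l, j⟩)} ∪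
          ⋃ l ∈ (Finset.univ : Finset (Fin u)),
            {x : (Σ l : Fin u, Fin (n l + 1)) × J → ℤ |
              ¬ AllIrr (polA fun j => kv B x ⟨l, j⟩)}) ∧ ∀ i, |v i| ≤ (H : ℤ)} := by
    rw [← Set.ncard_image_of_injective _ hinj]
    refine Set.ncard_le_ncard ?_ (box_fin _ H)
    rintro _ ⟨y, ⟨b1, hbad⟩, rfl⟩
    refine ⟨?_, ?_⟩
    · by_contra hcon
      simp only [Set.mem_union, not_or, Set.mem_iUnion, exists_prop, not_exists, not_and,
        Finset.mem_univ, forall_true_left] at hcon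
      obtain ⟨k1, k2⟩ := hcon
      have hin : InertIn a b (∏ l, polA fun j => kv B (φ y) ⟨l, j⟩) := by
        by_contra h5
        exact k1 h5
      have hall : ∀ l : Fin u, AllIrr (polA fun j => kv B (φ y) ⟨l, j⟩) := by
        intro l
        by_contra h5
        exact k2 l h5
      apply hbad
      simp only [hkv] at hin hall
      exact allBases_of hT hG hin hall
    · rintro ⟨⟨l, j⟩, t⟩
      exact b1 l j t
  exact_mod_cast h4

/-- **Almost all surfaces over a fixed curve.** -/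
theorem most_pairs (hT : IsTower k k' K F) {r s : ℕ} (hr : 2 ≤ r) (hs1 : 1 ≤ s) (hs2 : s ≠ 2)
    {m : ℕ} {D : Fin m → k[X]} (hD : ∀ i, D i ≠ 0) : MostPairs k' K F B D r s := by
  intro η hη
  have hA := main_allI (r := r) (m := fun _ : Fin 1 => s) (n := fun _ : Fin 0 => 1) hT B hr
    (fun _ => hs1) (fun _ => le_rfl) 0 hs2
  have hI := dens_inert (r := r) (m := s) B (D := X * ∏ i, D i) (mul_ne_zero X_ne_zero
    (Finset.prod_ne_zero_iff.2 fun i _ => hD i))
  obtain ⟨H0, hH⟩ := (hA.union hI) η hη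
  refine ⟨H0, fun H hHH => ?_⟩
  have h1 := hH H hHH
  have hcard : Fintype.card (Ixt r s × J) = Fintype.card J * (r + 1 + (s + 1)) := by
    rw [Fintype.card_prod, card_Ix, Nat.mul_comm]
    simp
  rw [hcard] at h1
  refine le_trans ?_ h1
  let φ : ((Fin (r + 1) → 𝓞 k) × (Fin (s + 1) → 𝓞 k)) → (Ixt r s × J → ℤ) := fun y o =>
    B.repr ((mk y.1 (fun _ => y.2) (fun l => l.elim0) : Ixt r s → 𝓞 k) o.1) o.2
  have hkv : ∀ y (o : Ixt r s), kv B (φ y) o =
      algebraMap (𝓞 k) k ((mk y.1 (fun _ => y.2) (fun l => l.elim0) : Ixt r s → 𝓞 k) o) := by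
    intro y o
    show algebraMap (𝓞 k) k (elt B fun j =>
      B.repr ((mk y.1 (fun _ => y.2) (fun l => l.elim0) : Ixt r s → 𝓞 k) o) j) = _
    rw [← basis_elt B]
  have hinj : Function.Injective φ := by
    intro y z hyz
    have h3 : ∀ o : Ixt r s, (mk y.1 (fun _ => y.2) (fun l => l.elim0) : Ixt r s → 𝓞 k) o =
        mk z.1 (fun _ => z.2) (fun l => l.elim0) o := by
      intro o
      apply FaithfulSMul.algebraMap_injective (𝓞 k) k
      rw [← hkv, ← hkv, hyz]
    refine Prod.ext ?_ ?_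
    · funext j
      exact h3 (Sum.inl (Sum.inl j))
    · funext j
      exact h3 (Sum.inl (Sum.inr ⟨0, j⟩))
  have hsub : φ '' {x : (Fin (r + 1) → 𝓞 k) × (Fin (s + 1) → 𝓞 k) |
      ((∀ j t, |B.repr (x.1 j) t| ≤ (H : ℤ)) ∧ ∀ j t, |B.repr (x.2 j) t| ≤ (H : ℤ)) ∧
      ¬ AllCovers k' K F (polA fun j => algebraMap (𝓞 k) k (x.1 j))
        (polA fun j => algebraMap (𝓞 k) k (x.2 j)) D} ⊆
      {v : Ixt r s × J → ℤ | v ∈ ({x : Ixt r s × J → ℤ |
        ¬ (InertIn (polA (aV (kv B x))) (polP (bV (kv B x)))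
        (∏ l, polA (Pool.Agent.R939.HI.dV (kv B x) l)) ∧
        ∀ D, InertIn (polA (aV (kv B x))) (polP (bV (kv B x))) D →
        TateTD k' K F (polA (aV (kv B x))) (polP (bV (kv B x))) D)} ∪
        {x : Ixt r s × J → ℤ | ¬ InertIn (polA (aV (kv B x))) (polP (bV (kv B x)))
          (X * ∏ i, D i)}) ∧
        ∀ i, |v i| ≤ (H : ℤ)} := by
    rintro _ ⟨y, ⟨⟨b1, b2⟩, hbad⟩, rfl⟩
    have ea : aV (kv B (φ y)) = fun j => algebraMap (𝓞 k) k (y.1 j) := by
      funext j
      exact hkv y (Sum.inl (Sum.inl j))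
    have eb : polP (bV (kv B (φ y))) = polA fun j => algebraMap (𝓞 k) k (y.2 j) := by
      have h5 : polP (bV (kv B (φ y))) = polA (bV (kv B (φ y)) 0) := by
        unfold polP
        rw [Fin.prod_univ_one]
      rw [h5]
      congr 1
      funext j
      exact hkv y (Sum.inl (Sum.inr ⟨0, j⟩))
    refine ⟨?_, ?_⟩
    · by_contra hcon
      rw [Set.mem_union, not_or] at hcon
      obtain ⟨c1, c2⟩ := hcon
      rw [Set.mem_setOf_eq, not_not, ea, eb] at c1 c2
      exact hbad fun h c hodd hc hi => of_td hT c2 c1.2 hc hodd hi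
    · rintro ⟨(j | ⟨i, j⟩) | ⟨l, j⟩, t⟩
      · exact b1 j t
      · exact b2 j t
      · exact l.elim0
  have h4 := Set.ncard_le_ncard hsub (box_fin _ H)
  rw [Set.ncard_image_of_injective _ hinj] at h4
  exact_mod_cast h4

end main

end Pool.Agent.Helper23K9.Q8
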