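import Pool.Agent.Helper23K9.Q8.Cor

/-!
The corestriction of invariant classes is invariant, relative version.
-/

set_option autoImplicit false
set_option linter.all false

open Polynomial IsDedekindDomain WeierstrassCurve WeierstrassCurve.Affine
open scoped Classical IntermediateField

namespace Pool.Agent.Helper23K9.Q8

open Pool.Agent.TH115.GD (Pt act incl rs ak Sep Comp CompInf IsCoc act_act rs_mul act_locConst
  LocTriv exists_conj exists_restrict Preserves LocallyTrivial)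
open Pool.Agent.Helper7K9.T3 (IsTM IsTC IsInv)
open Pool.Agent.Helper23K9.Q7 (cor am a1 Sg ak_comm rel_mul rel_inv rel_sign)

universe u

section inv

variable {K F Ω : Type u} [Field K] [Field F] [Field Ω] [Algebra K F] [Algebra F Ω] [Algebra K Ω]
  [IsScalarTower K F Ω] {W : WeierstrassCurve K} {R : Set Ω} {r : Ω} {t : Ω ≃ₐ[F] Ω} {ℓ : ℕ}

theorem cor_smul (S : SgR R r t) {f g : (Ω ≃ₐ[F] Ω) → Pt W Ω} {n : ℕ}
    (h : ∀ σ : Ω ≃ₐ[F] Ω, Fixes (insert r R) σ → n • f σ = g σ) (σ : Ω ≃ₐ[F] Ω) (iσ : Fixes R σ) :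
    n • cor W r t f σ = cor W r t g σ := by
  have ht := S.neg
  have hti := inv_neg' ht
  rcases S.split iσ with hσ | ⟨hσ, hσ'⟩
  · rw [cor_pos hσ, cor_pos hσ, smul_add, ← map_nsmul, h σ hσ.ins,
      h _ (mul_nn (mul_np hti hσ) ht).ins]
  · rw [cor_neg hσ, cor_neg hσ, smul_add, ← map_nsmul, h _ (mul_nn hσ' ht).ins,
      h _ (mul_nn hti hσ').ins]

theorem cor_zero (S : SgR R r t) {f : (Ω ≃ₐ[F] Ω) → Pt W Ω}
    (h : ∀ σ : Ω ≃ₐ[F] Ω, Fixes (insert r R) σ → f σ = 0)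
    (σ : Ω ≃ₐ[F] Ω) (iσ : Fixes R σ) : cor W r t f σ = 0 := by
  have ht := S.neg
  have hti := inv_neg' ht
  rcases S.split iσ with hσ | ⟨hσ, hσ'⟩
  · rw [cor_pos hσ, h σ hσ.ins, h _ (mul_nn (mul_np hti hσ) ht).ins, map_zero, add_zero]
  · rw [cor_neg hσ, h _ (mul_nn hσ' ht).ins, h _ (mul_nn hti hσ').ins, map_zero, add_zero]

theorem fixes_rel {τ : Ω ≃ₐ[K] Ω} (hτ : Fixes R τ) {σ σ' : Ω ≃ₐ[F] Ω}
    (h : ∀ x, τ (σ' x) = σ (τ x)) : Fixes R σ' ↔ Fixes R σ :=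
  ⟨fun h' ρ hρ => (rel_sign (hτ ρ hρ) h).1 (h' ρ hρ), fun h' ρ hρ =>
    (rel_sign (hτ ρ hρ) h).2 (h' ρ hρ)⟩

/-- The invariance under the automorphisms which fix `r`. -/
theorem inv_pos_cor [IsGalois F Ω] [IsSepClosed Ω] (hpres : Preserves K F Ω) (S : SgR R r t)
    {c : ℕ → (Ω ≃ₐ[F] Ω) → Pt W Ω} (hc : ∀ n, IsCocR W (insert r R) (c n))
    (h0 : ∀ σ : Ω ≃ₐ[F] Ω, Fixes (insert r R) σ → c 0 σ = 0)
    (hm : ∀ n (σ : Ω ≃ₐ[F] Ω), Fixes (insert r R) σ → ℓ • c (n + 1) σ = c n σ)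
    (hi : IsInvR W (insert r R) ℓ c)
    {τ : Ω ≃ₐ[K] Ω} (iτ : Fixes R τ) (hτ : τ r = r) :
    ∃ (m : ℕ) (Q : ℕ → Pt W Ω), IsTM ℓ W Q ∧
    ∀ (n : ℕ) (σ σ' : Ω ≃ₐ[F] Ω), Fixes R σ → (∀ x, τ (σ' x) = σ (τ x)) →
      ℓ ^ m • (act W (ak τ) (cor W r t (c n) σ') - cor W r t (c n) σ) =
        act W (rs K σ) (Q n) - Q n := by
  obtain ⟨m, Q, hQ, hrel0⟩ := hi τ (fixes_insert.2 ⟨iτ, hτ⟩)
  have hrel : ∀ (n : ℕ) (σ σ' : Ω ≃ₐ[F] Ω), Pos R r σ → (∀ x, τ (σ' x) = σ (τ x)) →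
      ℓ ^ m • (act W (ak τ) (c n σ') - c n σ) = act W (rs K σ) (Q n) - Q n :=
    fun n σ σ' h h' => hrel0 n σ σ' h.ins h'
  have ht := S.neg
  have hti := inv_neg' ht
  -- the conjugate of `t`
  obtain ⟨s, hs⟩ := exists_conj hpres τ.symm t
  have hst : ∀ x, τ (t x) = s (τ x) := by
    intro x
    have h1 := hs (τ x)
    rw [τ.symm_apply_apply] at h1
    rw [← h1, τ.apply_symm_apply]
  have hsr : Neg R r s := by
    refine ⟨(fixes_rel iτ hst).1 ht.1, ?_⟩
    have h1 := hst r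
    rw [ht.2, map_neg, hτ] at h1
    exact h1.symm
  have hsi := inv_neg' hsr
  have hts : Pos R r (t⁻¹ * s) := mul_nn hti hsr
  refine ⟨m, fun n => Q n + act W (rs K s) (Q n) + ℓ ^ m • act W (rs K t) (c n (t⁻¹ * s)),
    ⟨?_, fun n => ?_⟩, fun n σ σ' iσ h => ?_⟩
  · show Q 0 + act W (rs K s) (Q 0) + ℓ ^ m • act W (rs K t) (c 0 (t⁻¹ * s)) = 0
    rw [hQ.zero, map_zero, h0 _ hts.ins, map_zero, smul_zero, add_zero, add_zero]
  · show ℓ • (Q (n + 1) + act W (rs K s) (Q (n + 1)) + ℓ ^ m • act W (rs K t) (c (n + 1) (t⁻¹ * s))) =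
      Q n + act W (rs K s) (Q n) + ℓ ^ m • act W (rs K t) (c n (t⁻¹ * s))
    rw [smul_add, smul_add, hQ.mul, ← map_nsmul, hQ.mul, smul_comm, ← map_nsmul, hm n _ hts.ins]
  · have e0 : cor W r t (c n) σ = cor W r s (c n) σ -
        (act W (rs K σ) (act W (rs K t) (c n (t⁻¹ * s))) - act W (rs K t) (c n (t⁻¹ * s))) := by
      rw [cor_rep (hc n) S hsr σ iσ]
      abel
    have e1 : ℓ ^ m • (act W (ak τ) (cor W r t (c n) σ') - cor W r s (c n) σ) =
        act W (rs K σ) (Q n + act W (rs K s) (Q n)) - (Q n + act W (rs K s) (Q n)) := by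
      have iσ' : Fixes R σ' := (fixes_rel iτ h).2 iσ
      rcases S.split iσ with hσ | ⟨hσ, hσn⟩
      · have hσ' : Pos R r σ' := ⟨iσ', (rel_sign hτ h).2 hσ.2⟩
        have h1 := hrel n σ σ' hσ h
        have h2 := hrel n (s⁻¹ * σ * s) (t⁻¹ * σ' * t) (mul_nn (mul_np hsi hσ) hsr)
          (rel_mul (rel_mul (rel_inv hst) h) hst)
        rw [cor_pos hσ', cor_pos hσ, map_add, ak_comm τ hst]
        have h3 : ℓ ^ m • (act W (ak τ) (c n σ') +
            act W (rs K s) (act W (ak τ) (c n (t⁻¹ * σ' * t))) -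
            (c n σ + act W (rs K s) (c n (s⁻¹ * σ * s)))) =
            ℓ ^ m • (act W (ak τ) (c n σ') - c n σ) +
            act W (rs K s) (ℓ ^ m • (act W (ak τ) (c n (t⁻¹ * σ' * t)) -
              c n (s⁻¹ * σ * s))) := by
          rw [map_nsmul, map_sub, ← smul_add]
          congr 1
          abel
        rw [h3, h1, h2, map_sub, ← am s]
        have e3 : s * (s⁻¹ * σ * s) = σ * s := by group
        rw [e3, am, map_add]
        abel
      · have hσ' : ¬ σ' r = r := fun h' => hσ ((rel_sign hτ h).1 h')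
        have hσn' : Neg R r σ' := by
          rcases S.split iσ' with h' | h'
          · exact absurd h'.2 hσ'
          · exact h'.2
        have h1 := hrel n (σ * s) (σ' * t) (mul_nn hσn hsr) (rel_mul h hst)
        have h2 := hrel n (s⁻¹ * σ) (t⁻¹ * σ') (mul_nn hsi hσn) (rel_mul (rel_inv hst) h)
        rw [cor_neg hσ', cor_neg hσ, map_add, ak_comm τ hst]
        have h3 : ℓ ^ m • (act W (ak τ) (c n (σ' * t)) +
            act W (rs K s) (act W (ak τ) (c n (t⁻¹ * σ'))) -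
            (c n (σ * s) + act W (rs K s) (c n (s⁻¹ * σ)))) =
            ℓ ^ m • (act W (ak τ) (c n (σ' * t)) - c n (σ * s)) +
            act W (rs K s) (ℓ ^ m • (act W (ak τ) (c n (t⁻¹ * σ')) -
              c n (s⁻¹ * σ))) := by
          rw [map_nsmul, map_sub, ← smul_add]
          congr 1
          abel
        rw [h3, h1, h2, map_sub, ← am s]
        have e3 : s * (s⁻¹ * σ) = σ := by group
        rw [e3, am, map_add]
        abel
    rw [e0]
    have e2 : act W (ak τ) (cor W r t (c n) σ') - (cor W r s (c n) σ -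
        (act W (rs K σ) (act W (rs K t) (c n (t⁻¹ * s))) - act W (rs K t) (c n (t⁻¹ * s)))) =
        (act W (ak τ) (cor W r t (c n) σ') - cor W r s (c n) σ) +
        (act W (rs K σ) (act W (rs K t) (c n (t⁻¹ * s))) - act W (rs K t) (c n (t⁻¹ * s))) := by
      abel
    show _ = act W (rs K σ) (Q n + act W (rs K s) (Q n) + ℓ ^ m • act W (rs K t) (c n (t⁻¹ * s))) -
      (Q n + act W (rs K s) (Q n) + ℓ ^ m • act W (rs K t) (c n (t⁻¹ * s)))
    rw [e2, smul_add, e1, smul_sub, ← map_nsmul, map_add (act W (rs K σ))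
      (Q n + act W (rs K s) (Q n))]
    abel

/-- **The corestriction of an invariant class is invariant.** -/
theorem inv_cor [IsGalois F Ω] [IsSepClosed Ω] (hpres : Preserves K F Ω) (S : SgR R r t)
    {c : ℕ → (Ω ≃ₐ[F] Ω) → Pt W Ω} (hK : ∀ τ : Ω ≃ₐ[K] Ω, τ r = r ∨ τ r = -r)
    (hc : ∀ n, IsCocR W (insert r R) (c n))
    (h0 : ∀ σ : Ω ≃ₐ[F] Ω, Fixes (insert r R) σ → c 0 σ = 0)
    (hm : ∀ n (σ : Ω ≃ₐ[F] Ω), Fixes (insert r R) σ → ℓ • c (n + 1) σ = c n σ)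
    (hi : IsInvR W (insert r R) ℓ c) :
    IsInvR W R ℓ (fun n => cor W r t (c n)) := by
  intro τ iτ
  rcases hK τ with hτ | hτ
  · exact inv_pos_cor hpres S hc h0 hm hi iτ hτ
  · have ht := S.neg
    have hti := inv_neg' ht
    obtain ⟨g, hg⟩ : ∃ g : Ω ≃ₐ[K] Ω, ∀ x, g x = τ (t⁻¹ x) :=
      ⟨(t⁻¹.restrictScalars K).trans τ, fun x => rfl⟩
    have hgr : g r = r := by
      rw [hg, hti.2, map_neg, hτ, neg_neg]
    have igR : Fixes R g := fun ρ hρ => by rw [hg, hti.1 ρ hρ, iτ ρ hρ]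
    obtain ⟨m, Q, hQ, hrel⟩ := inv_pos_cor hpres S hc h0 hm hi igR hgr
    refine ⟨m, fun n => Q n + ℓ ^ m • act W (ak g) (cor W r t (c n) t), ⟨?_, fun n => ?_⟩,
      fun n σ σ' iσ h => ?_⟩
    · show Q 0 + ℓ ^ m • act W (ak g) (cor W r t (c 0) t) = 0
      rw [hQ.zero, cor_zero S h0 t ht.1, map_zero, smul_zero, add_zero]
    · show ℓ • (Q (n + 1) + ℓ ^ m • act W (ak g) (cor W r t (c (n + 1)) t)) =
        Q n + ℓ ^ m • act W (ak g) (cor W r t (c n) t)
      rw [smul_add, hQ.mul, smul_comm, ← map_nsmul, cor_smul S (hm n) t ht.1]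
    · have h1 : ∀ x, g ((t * σ' * t⁻¹) x) = σ (g x) := by
        intro x
        rw [hg, hg, ← h, ← AlgEquiv.mul_apply]
        congr 1
        rw [← AlgEquiv.mul_apply]
        congr 1
        group
      have iσ' : Fixes R σ' := (fixes_rel iτ h).2 iσ
      have h2 := hrel n σ (t * σ' * t⁻¹) iσ h1
      have hcoc := (hc n).cor S
      show ℓ ^ m • (act W (ak τ) (cor W r t (c n) σ') - cor W r t (c n) σ) =
        act W (rs K σ) (Q n + ℓ ^ m • act W (ak g) (cor W r t (c n) t)) -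
          (Q n + ℓ ^ m • act W (ak g) (cor W r t (c n) t))
      obtain ⟨φ, hφ⟩ : ∃ φ, φ = cor W r t (c n) := ⟨_, rfl⟩
      rw [← hφ] at h2 hcoc ⊢
      have h3 : φ 1 = 0 := by
        have := hcoc.mul 1 1 fixes_one fixes_one
        rw [mul_one, a1] at this
        have h4 : φ 1 + 0 = φ 1 + φ 1 := by rw [add_zero]; exact this
        exact (add_left_cancel h4).symm
      have h5 : act W (rs K t) (φ t⁻¹) = -φ t := by
        have := hcoc.mul t t⁻¹ ht.1 hti.1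
        rw [mul_inv_cancel, h3] at this
        exact (neg_eq_of_add_eq_zero_right this.symm).symm
      have h6 : act W (rs K t) (φ σ') =
          φ (t * σ' * t⁻¹) + act W (rs K (t * σ' * t⁻¹)) (φ t) - φ t := by
        have e1 : σ' = t⁻¹ * ((t * σ' * t⁻¹) * t) := by group
        nth_rewrite 1 [e1]
        have i1 : Fixes R (t * σ' * t⁻¹ : Ω ≃ₐ[F] Ω) := (ht.1.mul iσ').mul hti.1
        rw [hcoc.mul _ _ hti.1 (i1.mul ht.1), hcoc.mul _ t i1 ht.1, map_add, h5, ← am t t⁻¹,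
          mul_inv_cancel, a1]
        abel
      have h7 : act W (ak τ) (φ σ') = act W (ak g) (act W (rs K t) (φ σ')) := by
        have h8 : (ak g).comp (rs K t) = ak τ := AlgHom.ext fun x => by
          show g (t x) = τ x
          rw [hg, ← AlgEquiv.mul_apply, inv_mul_cancel, AlgEquiv.one_apply]
        rw [act_act, h8]
      rw [h7, h6, map_sub, map_add, ak_comm g h1]
      have h9 : act W (ak g) (φ (t * σ' * t⁻¹)) + act W (rs K σ) (act W (ak g) (φ t)) -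
          act W (ak g) (φ t) - φ σ = (act W (ak g) (φ (t * σ' * t⁻¹)) - φ σ) +
          (act W (rs K σ) (act W (ak g) (φ t)) - act W (ak g) (φ t)) := by abel
      rw [h9, smul_add, h2, smul_sub, ← map_nsmul, map_add (act W (rs K σ)) (Q n)]
      abel

end inv

end Pool.Agent.Helper23K9.Q8
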