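import Pool.Agent.Helper23K9.Q8.Inv
import Pool.Agent.Helper23K9.Q7.Two

/-!
The Tate conjecture over multiquadratic covers of the projective line.
-/

set_option autoImplicit false
set_option linter.all false

open Polynomial IsDedekindDomain WeierstrassCurve WeierstrassCurve.Affine
open scoped Classical IntermediateField

namespace Pool.Agent.Helper23K9.Q8

open Pool.Agent.TH115.GD (Pt act incl rs ak Sep Comp CompInf IsCoc act_act rs_mul act_locConst
  LocTriv exists_conj exists_restrict Preserves LocallyTrivial IsTower preserves)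
open Pool.Agent.Helper7K9.T3 (IsTM IsTC IsInv TateAt)
open Pool.Agent.Helper23K9.Q5 (qtw tw tw_act tw_neg disc_bc)
open Pool.Agent.Helper23K9.Q7 (cor am a1 Sg ak_comm rel_mul rel_inv rel_sign tw_pos tw_minus two_eq)

universe u

section twist

variable {K F Ω : Type u} [Field K] [Field F] [Field Ω] [Algebra K F] [Algebra F Ω] [Algebra K Ω]
  [IsScalarTower K F Ω] {W : WeierstrassCurve K} {R : Set Ω} {r : Ω} {d : K} {ℓ : ℕ}
  (hE : W.Δ ≠ 0) (h2 : (2 : Ω) ≠ 0) (hr : r ^ 2 = algebraMap K Ω d) (hr0 : r ≠ 0)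

theorem coc_twist {f : (Ω ≃ₐ[F] Ω) → Pt W Ω} (hf : IsCocR W (insert r R) f) :
    IsCocR (qtw d W) (insert r R) (fun σ => tw hE h2 hr hr0 (f σ)) :=
  ⟨hf.lc.comp _, fun σ τ hσ hτ => by
    show tw hE h2 hr hr0 (f (σ * τ)) = tw hE h2 hr hr0 (f σ) +
      act (qtw d W) (rs K σ) (tw hE h2 hr hr0 (f τ))
    rw [hf.mul σ τ hσ hτ, map_add, tw_pos hE h2 hr hr0 (rs K σ) (fixes_insert.1 hσ).2]⟩

theorem inv_twist {c : ℕ → (Ω ≃ₐ[F] Ω) → Pt W Ω} (hi : IsInvR W (insert r R) ℓ c) :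
    IsInvR (qtw d W) (insert r R) ℓ (fun n σ => tw hE h2 hr hr0 (c n σ)) := by
  intro τ hτ
  obtain ⟨m, Q, hQ, h⟩ := hi τ hτ
  refine ⟨m, fun n => tw hE h2 hr hr0 (Q n), ⟨?_, fun n => ?_⟩, fun n σ σ' hσ hs => ?_⟩
  · show tw hE h2 hr hr0 (Q 0) = 0
    rw [hQ.zero, map_zero]
  · show ℓ • tw hE h2 hr hr0 (Q (n + 1)) = tw hE h2 hr hr0 (Q n)
    rw [← map_nsmul, hQ.mul]
  · show ℓ ^ m • (act (qtw d W) (ak τ) (tw hE h2 hr hr0 (c n σ')) - tw hE h2 hr hr0 (c n σ)) =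
      act (qtw d W) (rs K σ) (tw hE h2 hr hr0 (Q n)) - tw hE h2 hr hr0 (Q n)
    rw [tw_pos hE h2 hr hr0 (ak τ) (fixes_insert.1 hτ).2,
      tw_pos hE h2 hr hr0 (rs K σ) (fixes_insert.1 hσ).2, ← map_sub, ← map_nsmul,
      h n σ σ' hσ hs, map_sub]

theorem loc_twist {Fv Ω' : Type u} [Field Fv] [Field Ω']
    [Algebra K Fv] [Algebra Fv Ω'] [Algebra K Ω'] [Algebra F Ω'] [IsScalarTower K Fv Ω']
    [IsScalarTower K F Ω'] {f : (Ω ≃ₐ[F] Ω) → Pt W Ω}
    (hloc : LocTrivR W (insert r R) Fv Ω' f) :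
    LocTrivR (qtw d W) (insert r R) Fv Ω' (fun σ => tw hE h2 hr hr0 (f σ)) := by
  intro ι
  obtain ⟨P, hP⟩ := hloc ι
  have h2' : (2 : Ω') ≠ 0 := by
    intro h
    apply h2
    apply ι.injective
    rw [map_zero, map_ofNat, h]
  have hr' : (ι r) ^ 2 = algebraMap K Ω' d := by
    rw [← map_pow, hr, IsScalarTower.algebraMap_apply K F Ω, ι.commutes,
      ← IsScalarTower.algebraMap_apply]
  have hr0' : ι r ≠ 0 := (_root_.map_ne_zero ι).2 hr0
  refine ⟨tw hE h2' hr' hr0' P, fun τ σ hσ h => ?_⟩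
  have hτ : rs K τ (ι r) = ι r := by
    show τ (ι r) = ι r
    rw [h, (fixes_insert.1 hσ).2]
  show act (qtw d W) (ι.restrictScalars K) (tw hE h2 hr hr0 (f σ)) =
    act (qtw d W) (rs K τ) (tw hE h2' hr' hr0' P) - tw hE h2' hr' hr0' P
  rw [tw_act hE h2 h2' hr hr0 hr' hr0' (ι.restrictScalars K) rfl, hP τ σ hσ h, map_sub,
    tw_act hE h2' h2' hr' hr0' hr' hr0' (rs K τ) hτ]

/-- The point over an extension `L` of `L0` which contains a root `g` of `d`. -/
theorem pt_gen {L0 L : Type u} [Field L0] [Field L] [Algebra K L0] [Algebra K L]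
    (v0 : L0 →ₐ[K] Ω) (v : L →ₐ[K] Ω) (j : L0 →ₐ[K] L) (hj : v.comp j = v0) (g : L) (hg : v g = r)
    (P : Pt W L0) (P' : Pt (qtw d W) L0) (n n' : ℕ) :
    ∃ PL : Pt W L, act W v PL = n • act W v0 P + n' •
      (tw hE h2 hr hr0).symm (act (qtw d W) v0 P') := by
  have hvi : Function.Injective v := RingHom.injective (v : L →+* Ω)
  have hg2 : g ^ 2 = algebraMap K L d := by
    apply hvi
    rw [map_pow, hg, hr, AlgHom.commutes]
  have hg0 : g ≠ 0 := by
    rintro rfl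
    exact hr0 (by rw [← hg, map_zero])
  have h2' : (2 : L) ≠ 0 := by
    intro h
    apply h2
    have h1 := congrArg v h
    rw [map_zero, map_ofNat] at h1
    exact h1
  have e1 : ∀ X : Pt W L, act (qtw d W) v (tw hE h2' hg2 hg0 X) =
      tw hE h2 hr hr0 (act W v X) := fun X =>
    tw_act hE h2' h2 hg2 hg0 hr hr0 v hg X
  have e2 : ∀ (V : WeierstrassCurve K) (Y : Pt V L0),
      act V v (act V j Y) = act V v0 Y := by
    intro V Y
    rw [act_act, hj]
  refine ⟨n • act W j P + n' • (tw hE h2' hg2 hg0).symm (act (qtw d W) j P'), ?_⟩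
  rw [map_add, map_nsmul, map_nsmul, e2]
  congr 2
  apply (tw hE h2 hr hr0).injective
  rw [← e1, AddEquiv.apply_symm_apply, AddEquiv.apply_symm_apply, e2]

/-- The point over an intermediate field. -/
theorem pt_le {L0 L : IntermediateField K Ω} (hle : L0 ≤ L) (hrL : r ∈ L)
    (P : Pt W L0) (P' : Pt (qtw d W) L0) (n n' : ℕ) :
    ∃ PL : Pt W L, act W L.val PL =
      n • act W L0.val P + n' • (tw hE h2 hr hr0).symm (act (qtw d W) L0.val P') := by
  have hj : L.val.comp (IntermediateField.inclusion hle) = L0.val := by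
    apply AlgHom.ext
    intro x
    rfl
  have hg : L.val ⟨r, hrL⟩ = r := rfl
  exact pt_gen hE h2 hr hr0 L0.val L.val (IntermediateField.inclusion hle) hj ⟨r, hrL⟩ hg P P' n n'

/-- The point over `K(R, r)`. -/
theorem pt_over (P : Pt W (IntermediateField.adjoin K R))
    (P' : Pt (qtw d W) (IntermediateField.adjoin K R)) (n n' : ℕ) :
    ∃ PL : Pt W (IntermediateField.adjoin K (insert r R)),
    act W (IntermediateField.adjoin K (insert r R)).val PL =
      n • act W (IntermediateField.adjoin K R).val P + n' •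
      (tw hE h2 hr hr0).symm (act (qtw d W) (IntermediateField.adjoin K R).val P') :=
  pt_le hE h2 hr hr0 (IntermediateField.adjoin.mono K _ _ (Set.subset_insert _ _))
    (IntermediateField.subset_adjoin K _ (Set.mem_insert _ _)) P P' n n'

end twist

section main

variable {k k' K F : Type} [Field k] [Field k'] [Algebra k k'] [Field K] [Algebra k[X] K]
    [Field F] [Algebra k'[X] F] [IsFractionRing k'[X] F] [Algebra K F]

theorem lt_cor {W : WeierstrassCurve K} {R : Set (Sep F)} {r : Sep F} {t : Sep F ≃ₐ[F] Sep F}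
    {f : (Sep F ≃ₐ[F] Sep F) → Pt W (Sep F)} (hf : IsCocR W (insert r R) f) (S : SgR R r t)
    (h : LocallyTrivialR k' W (insert r R) f) : LocallyTrivialR k' W R (cor W r t f) :=
  ⟨fun v => loc_cor hf S (h.1 v), loc_cor hf S h.2⟩

/-- The Tate conjecture over the projective line itself. -/
theorem over_empty {W : WeierstrassCurve K} (h : TateAt (F := F) 2 k' W) :
    TateOverR 2 k' W (∅ : Set (Sep F)) := by
  have fe : ∀ σ : Sep F → Sep F, Fixes (∅ : Set (Sep F)) σ := fun σ ρ hρ => absurd hρ (by simp)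
  intro c hc h0 hm hloc hi
  refine ⟨0, fun n => ?_⟩
  obtain ⟨P, Q, hQ, hcQ⟩ := h c ⟨fun n => ⟨(hc n).lc, fun σ τ => (hc n).mul σ τ (fe _) (fe _)⟩,
    fun σ => h0 σ (fe _), fun n σ => hm n σ (fe _)⟩
    (fun n => ⟨fun v => by
      obtain ⟨P, hP⟩ := (hloc n).1 v IsSepClosed.lift
      exact ⟨IsSepClosed.lift, P, fun τ σ h => hP τ σ (fe _) h⟩, by
      obtain ⟨P, hP⟩ := (hloc n).2 IsSepClosed.lift
      exact ⟨IsSepClosed.lift, P, fun τ σ h => hP τ σ (fe _) h⟩⟩)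
    (fun τ => by
      obtain ⟨m, Q, hQ, h⟩ := hi τ (fe _)
      exact ⟨m, Q, hQ, fun n σ σ' hs => h n σ σ' (fe _) hs⟩) n
  refine ⟨act W (incl K K _) P, Q, ?_, fun σ _ => ?_⟩
  · rw [act_act, hQ]
    rfl
  · show 2 ^ 0 • c n σ = _
    rw [pow_zero, one_smul]
    exact hcQ σ

/-- **The step.** -/
theorem step (hT : IsTower k k' K F) (h2k : (2 : k) ≠ 0)
    {W : WeierstrassCurve K} (hE : W.Δ ≠ 0) {d : K} {R : Set (Sep F)} {r : Sep F}
    (hr : r ^ 2 = algebraMap K (Sep F) d)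
    (hrt : ∃ t : Sep F ≃ₐ[F] Sep F, Fixes R t ∧ t r ≠ r)
    (h1 : TateOverR 2 k' W R) (hd1 : TateOverR 2 k' (qtw d W) R) :
    TateOverR 2 k' W (insert r R) := by
  haveI := hT.sep
  haveI := hT.fracK
  have hpres : Preserves K F (Sep F) := preserves hT.map
  have h2 : (2 : Sep F) ≠ 0 := by
    have h2K : (2 : K) ≠ 0 := by
      have : (2 : K) = algebraMap k[X] K (C 2) := by rw [map_ofNat, map_ofNat]
      rw [this, Ne, map_eq_zero_iff _ (IsFractionRing.injective k[X] K)]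
      exact C_ne_zero.2 h2k
    have : (2 : Sep F) = algebraMap K (Sep F) 2 := (map_ofNat _ _).symm
    rw [this]
    exact (_root_.map_ne_zero _).2 h2K
  have hK : ∀ τ : Sep F ≃ₐ[K] Sep F, τ r = r ∨ τ r = -r := by
    intro τ
    apply sq_eq_sq_iff_eq_or_eq_neg.1
    rw [← map_pow, hr, τ.commutes]
  have hpm : ∀ σ : Sep F ≃ₐ[F] Sep F, σ r = r ∨ σ r = -r := by
    intro σ
    apply sq_eq_sq_iff_eq_or_eq_neg.1
    rw [← map_pow, hr, IsScalarTower.algebraMap_apply K F (Sep F), σ.commutes]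
  obtain ⟨t, htR, htr⟩ := hrt
  have ht : t r = -r := (hpm t).resolve_left htr
  have hr0 : r ≠ 0 := by
    rintro rfl
    exact htr (map_zero t)
  have hne : r ≠ -r := by
    intro h
    exact htr (ht.trans h.symm)
  have S : SgR R r t := ⟨hpm, hne, htR, ht⟩
  intro c hc h0 hm hloc hi
  have hA : ∀ n, IsCocR (qtw d W) (insert r R) (fun σ => tw hE h2 hr hr0 (c n σ)) :=
    fun n => coc_twist hE h2 hr hr0 (hc n)
  have hA0 : ∀ σ : Sep F ≃ₐ[F] Sep F, Fixes (insert r R) σ → tw hE h2 hr hr0 (c 0 σ) = 0 :=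
    fun σ hσ => by
      rw [h0 σ hσ, map_zero]
  have hAm : ∀ n (σ : Sep F ≃ₐ[F] Sep F), Fixes (insert r R) σ →
      2 • tw hE h2 hr hr0 (c (n + 1) σ) = tw hE h2 hr hr0 (c n σ) := fun n σ hσ => by
    rw [← map_nsmul, hm n σ hσ]
  have hAi := inv_twist (ℓ := 2) hE h2 hr hr0 hi
  obtain ⟨m, hm1⟩ := h1 (fun n => cor W r t (c n)) (fun n => (hc n).cor S) (cor_zero S h0)
    (fun n => cor_smul S (hm n)) (fun n => lt_cor (hc n) S (hloc n))
    (inv_cor hpres S hK hc h0 hm hi)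
  obtain ⟨m', hm2⟩ := hd1 (fun n => cor (qtw d W) r t (fun σ => tw hE h2 hr hr0 (c n σ)))
    (fun n => (hA n).cor S) (cor_zero S hA0)
    (fun n => cor_smul S (hAm n))
    (fun n => lt_cor (hA n) S ⟨fun v => loc_twist hE h2 hr hr0 ((hloc n).1 v),
      loc_twist hE h2 hr hr0 (hloc n).2⟩)
    (inv_cor hpres S hK hA hA0 hAm hAi)
  refine ⟨m + m' + 1, fun n => ?_⟩
  obtain ⟨P, Q, hQ, hcQ⟩ := hm1 n
  obtain ⟨P', Q', hQ', hcQ'⟩ := hm2 n
  obtain ⟨PL, hPL⟩ := pt_over hE h2 hr hr0 P P' (2 ^ m') (2 ^ m)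
  refine ⟨PL, 2 ^ m' • Q + 2 ^ m • (tw hE h2 hr hr0).symm Q', ?_, fun σ hσ => ?_⟩
  · rw [hPL, smul_add, smul_comm, hQ, smul_comm (2 ^ n) (2 ^ m), ← map_nsmul
      (tw hE h2 hr hr0).symm, hQ']
  · obtain ⟨iσ, hσr⟩ := fixes_insert.1 hσ
    have e1 := two_eq hE h2 hr hr0 S.sg (c n) hσr
    have e2 : 2 ^ m • cor W r t (c n) σ = act W (rs K σ) Q - Q := hcQ σ iσ
    have e3 : 2 ^ m' • cor (qtw d W) r t (fun σ => tw hE h2 hr hr0 (c n σ)) σ =
        act (qtw d W) (rs K σ) Q' - Q' := hcQ' σ iσ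
    have e4 : (tw hE h2 hr hr0).symm (act (qtw d W) (rs K σ) Q') =
        act W (rs K σ) ((tw hE h2 hr hr0).symm Q') := by
      apply (tw hE h2 hr hr0).injective
      rw [AddEquiv.apply_symm_apply, ← tw_pos hE h2 hr hr0 (rs K σ) hσr,
        AddEquiv.apply_symm_apply]
    have e5 : 2 ^ m' • (tw hE h2 hr hr0).symm
        (cor (qtw d W) r t (fun σ => tw hE h2 hr hr0 (c n σ)) σ) =
        act W (rs K σ) ((tw hE h2 hr hr0).symm Q') - (tw hE h2 hr hr0).symm Q' := by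
      rw [← map_nsmul, e3, map_sub, e4]
    show 2 ^ (m + m' + 1) • c n σ = _
    have e6 : (2 ^ (m + m' + 1) : ℕ) • c n σ = 2 ^ m' • (2 ^ m • cor W r t (c n) σ) +
        2 ^ m • (2 ^ m' • (tw hE h2 hr hr0).symm
          (cor (qtw d W) r t (fun σ => tw hE h2 hr hr0 (c n σ)) σ)) := by
      have e7 : (2 ^ (m + m' + 1) : ℕ) = 2 ^ m * 2 ^ m' * 2 := by ring
      rw [e7, mul_smul, ← e1, smul_add, mul_smul, mul_smul, smul_comm (2 ^ m) (2 ^ m')
        (cor W r t (c n) σ)]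
    rw [e6, e2, e5, map_add, map_nsmul, map_nsmul, smul_sub, smul_sub]
    abel

end main

end Pool.Agent.Helper23K9.Q8
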